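import Mathlib

set_option autoImplicit false

namespace Pool.Agent.Results.MP_a6de22_an.Counter

open Matrix Polynomial

/-- `X` has a normal completion with `k` extra rows and columns. -/
def HasCompl {m : ℕ} (X : Matrix (Fin m) (Fin m) ℂ) (k : ℕ) : Prop :=
  ∃ N : Matrix (Fin (m + k)) (Fin (m + k)) ℂ, N * Nᴴ = Nᴴ * N ∧
    ∀ i j : Fin m, N (Fin.castAdd k i) (Fin.castAdd k j) = X i j

/-- The normal defect. -/
noncomputable def nd {m : ℕ} (X : Matrix (Fin m) (Fin m) ℂ) : ℕ := sInf {k | HasCompl X k}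

/-- The larger of the numbers of positive and of negative eigenvalues of `X X* - X* X`. -/
noncomputable def eps {m : ℕ} (X : Matrix (Fin m) (Fin m) ℂ) : ℕ :=
  max ((X * Xᴴ - Xᴴ * X).charpoly.roots.countP fun z => 0 < z.re)
    ((X * Xᴴ - Xᴴ * X).charpoly.roots.countP fun z => z.re < 0)

/-- The cyclic weighted shift. -/
def cyc {n : ℕ} (a : Fin n → ℂ) : Matrix (Fin n) (Fin n) ℂ :=
  fun i j => if (j : ℕ) = (i + 1) % n then a i else 0

/-- The truncated weighted shift of size `n + 1`. -/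
def trunc {n : ℕ} (a : Fin n → ℂ) : Matrix (Fin (n + 1)) (Fin (n + 1)) ℂ :=
  fun i j => if h : (j : ℕ) = i + 1 then a ⟨i, by omega⟩ else 0

lemma eps_diag {m : ℕ} {X : Matrix (Fin m) (Fin m) ℂ} {d : Fin m → ℂ}
    (h : X * Xᴴ - Xᴴ * X = diagonal d) :
    eps X = max ((List.ofFn d).countP fun z => 0 < z.re) ((List.ofFn d).countP fun z => z.re < 0) := by
  have : (diagonal d).charpoly.roots = (List.ofFn d : Multiset ℂ) := by
    rw [charpoly_diagonal, ← roots_multiset_prod_X_sub_C (List.ofFn d : Multiset ℂ),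
      Multiset.map_coe, Multiset.prod_coe, List.map_ofFn, List.prod_ofFn]
    rfl
  rw [eps, h, this, Multiset.coe_countP, Multiset.coe_countP]

lemma cyc_eq : cyc ![1, 2, 1, 1] = !![0, 1, 0, 0; 0, 0, 2, 0; 0, 0, 0, 1; 1, 0, 0, 0] := by
  ext i j; fin_cases i <;> fin_cases j <;> simp [cyc]

lemma trunc_eq : trunc ![1, 2, 1, 1] =
    !![0, 1, 0, 0, 0; 0, 0, 2, 0, 0; 0, 0, 0, 1, 0; 0, 0, 0, 0, 1; 0, 0, 0, 0, 0] := by
  ext i j; fin_cases i <;> fin_cases j <;> simp [trunc]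

lemma e1 : eps (cyc ![1, 2, 1, 1]) = 1 := by
  rw [eps_diag (d := ![0, 3, -3, 0])]
  · simp [List.countP_cons]
  · rw [cyc_eq]
    ext i j
    rw [Matrix.sub_apply, mul_apply, mul_apply]
    fin_cases i <;> fin_cases j <;> simp [Fin.sum_univ_succ, map_ofNat] <;> norm_num

lemma e2 : eps (trunc ![1, 2, 1, 1]) = 2 := by
  rw [eps_diag (d := ![1, 3, -3, 0, -1])]
  · simp [List.countP_cons]
  · rw [trunc_eq]
    ext i j
    rw [Matrix.sub_apply, mul_apply, mul_apply]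
    fin_cases i <;> fin_cases j <;> simp [Fin.sum_univ_succ, map_ofNat] <;> norm_num

lemma real_normal {m : ℕ} (R : Matrix (Fin m) (Fin m) ℚ) (h : R * Rᵀ = Rᵀ * R) :
    R.map ((↑) : ℚ → ℂ) * (R.map ((↑) : ℚ → ℂ))ᴴ = (R.map ((↑) : ℚ → ℂ))ᴴ * R.map ((↑) : ℚ → ℂ) := by
  have e : (R.map ((↑) : ℚ → ℂ))ᴴ = Rᵀ.map ((↑) : ℚ → ℂ) := by
    ext i j; simp
  rw [e]
  ext i j
  have := congrArg ((↑) : ℚ → ℂ) (congrFun (congrFun h i) j)
  simpa [mul_apply] using this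

lemma c2 : HasCompl (cyc ![1, 2, 1, 1]) 2 := by
  refine ⟨_, real_normal !![0, 1, 0, 0, -1, 0; 0, 0, 2, 0, 0, -1; 0, 0, 0, 1, 0, 2;
    1, 0, 0, 0, -1, 0; 1, 0, 0, 1, 1 / 2, -1; 0, -2, 1, 0, -1, -2] (by decide +kernel), ?_⟩
  rw [cyc_eq]
  intro i j; fin_cases i <;> fin_cases j <;> simp [Fin.castAdd, Fin.castLE]

lemma t2 : HasCompl (trunc ![1, 2, 1, 1]) 2 := by
  refine ⟨_, real_normal !![0, 1, 0, 0, 0, 0, 0; 0, 0, 2, 0, 0, 3, 2; 0, 0, 0, 1, 0, 0, 2;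
    0, 0, 0, 0, 1, 0, 0; 0, 0, 0, 0, 0, 2, 1; 1, 0, 0, 0, 0, 0, 4; 0, 4, 1, 0, 2, 2, 4]
    (by decide +kernel), ?_⟩
  rw [trunc_eq]
  intro i j; fin_cases i <;> fin_cases j <;> simp [Fin.castAdd, Fin.castLE]

lemma c0 : ¬ HasCompl (cyc ![1, 2, 1, 1]) 0 := by
  rintro ⟨N, h, hN⟩
  have e : N = cyc ![1, 2, 1, 1] := by ext i j; exact hN i j
  rw [e, cyc_eq] at h
  have := congrFun (congrFun h 1) 1
  simp [mul_apply, Fin.sum_univ_succ, map_ofNat] at this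
  norm_num at this

lemma aux {b0 b1 c0 c1 : ℂ} (h1 : b0 * star b0 = star c0 * c0)
    (h2 : b1 * star b1 + 3 = star c1 * c1) (h3 : b0 * star b1 = star c0 * c1) : b0 = 0 ∧ c0 = 0 := by
  have h4 := congrArg star h3
  simp only [star_mul', star_star] at h4
  have h5 : star c0 * c0 = 0 := by
    linear_combination (1 / 3 : ℂ) * ((star c0 * c0) * h2 + (star b0 * b1) * h3 * (-1) +
      (star c0 * c1) * h4 * (-1) + (b1 * star b1) * h1)
  constructor
  · rw [h5] at h1; simpa using h1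
  · simpa using h5

lemma c1 : ¬ HasCompl (cyc ![1, 2, 1, 1]) 1 := by
  rintro ⟨N, h, hN⟩
  rw [cyc_eq] at hN
  have e : N = !![0, 1, 0, 0, N 0 4; 0, 0, 2, 0, N 1 4; 0, 0, 0, 1, N 2 4; 1, 0, 0, 0, N 3 4;
      N 4 0, N 4 1, N 4 2, N 4 3, N 4 4] := by
    ext i j
    refine Fin.addCases (m := 4) (n := 1) (fun i => ?_) (fun i => ?_) i <;>
      refine Fin.addCases (m := 4) (n := 1) (fun j => ?_) (fun j => ?_) j
    · rw [hN]; fin_cases i <;> fin_cases j <;> rfl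
    all_goals fin_cases i <;> fin_cases j <;> rfl
  generalize N 0 4 = b0, N 1 4 = b1, N 2 4 = b2, N 3 4 = b3, N 4 0 = c0, N 4 1 = c1, N 4 2 = c2,
    N 4 3 = c3, N 4 4 = d at e
  subst e
  have h00 := congrFun (congrFun h 0) 0
  have h11 := congrFun (congrFun h 1) 1
  have h33 := congrFun (congrFun h 3) 3
  have h01 := congrFun (congrFun h 0) 1
  have h31 := congrFun (congrFun h 3) 1
  have h04 := congrFun (congrFun h 0) 4
  simp [mul_apply, Fin.sum_univ_succ, -RCLike.star_def] at h00 h11 h33 h01 h31 h04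
  have k : b1 * star b1 + 3 = star c1 * c1 := by
    rw [map_ofNat] at h11
    simp only [RCLike.star_def]
    linear_combination h11
  obtain ⟨rfl, rfl⟩ := aux h00 k h01
  obtain ⟨rfl, rfl⟩ := aux h33 k h31
  simp at h04
  have := congrArg Complex.re k
  simp [h04] at this
  nlinarith [mul_self_nonneg b1.re, mul_self_nonneg b1.im]

theorem result : ∃ (n : ℕ) (_ : 4 ≤ n) (a : Fin n → ℂ),
    (∃ k, HasCompl (cyc a) k) ∧ (∃ k, HasCompl (trunc a) k) ∧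
    nd (cyc a) = eps (cyc a) + 1 ∧ nd (trunc a) ≠ eps (trunc a) + 1 := by
  refine ⟨4, le_rfl, ![1, 2, 1, 1], ⟨2, c2⟩, ⟨2, t2⟩, ?_, ?_⟩
  · rw [e1]
    have h1 : nd (cyc ![1, 2, 1, 1]) ≤ 2 := Nat.sInf_le c2
    have h2 : HasCompl (cyc ![1, 2, 1, 1]) (nd (cyc ![1, 2, 1, 1])) := 
      Nat.sInf_mem (s := {k | HasCompl (cyc ![1, 2, 1, 1]) k}) ⟨2, c2⟩
    generalize nd (cyc ![1, 2, 1, 1]) = k at h1 h2
    interval_cases k
    exacts [absurd h2 c0, absurd h2 c1, rfl]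
  · have h1 : nd (trunc ![1, 2, 1, 1]) ≤ 2 := Nat.sInf_le t2
    rw [e2]; omega

end Pool.Agent.Results.MP_a6de22_an.Counter
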